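import Pool.Agent.V8H54.RS.SicAll
import Pool.Agent.V8H12.OP.D
import Pool.Agent.N375.AV.L2

/-!
# The asymptotic formula in Oppermann's intervals for all integers near functions of the values of additive functions and of
# their compositions

The statement of Q1 would follow if each of the two intervals `[n² - n, n²]` and `[n², n² + n]` contained `~ n / (2 log n)`
primes. We find this asymptotic formula for ALL integers in sparse sequences of windows.

Let `A ≥ 0` and `δ > 0`. Call `n` regular if EVERY interval `(y, y + h]` of integers with `n² - n ≤ y`, `y + h ≤ n² + n` and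
`h ≥ n / (log n)^A` contains between `(1 - δ) h / (2 log n)` and `(1 + δ) h / (2 log n)` primes.

Let `F = f_1 ∘ ⋯ ∘ f_k` be a composition of functions dominated by the largest prime factor, for example of additive functions
`f` with `f(q^j) ≤ C q^j` which are injective at the large primes (the sum of the prime factors), of the largest prime factor
and of Kempner's function. For all `m ≤ N` but `N / (log N)^U`, for every `U`, EVERY `n` with
`|n - α F(m)| ≤ (1 + log F(m))^W` is regular; more generally `G (F m)` takes the place of `α F(m)`, where `G` is any function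
with steps bounded below by a positive constant and growth at most linear. The values of `F` are taken with very large
multiplicities, and `F(m)` is in general of smaller order of magnitude than `m`, and so this does not follow from the number of
the `n ≤ N` which are not regular.

Proof. The mean square of `ψ(m + Y) - ψ(m) - Y` over `x < m ≤ 2x` is at most `Y² / (log x)^V` for `Y ≥ x^(2/5)`
(`V8H54/RS/SicAll`: project CR of the team, by the library of helper236; `Y ≥ x^(1/3) (log x)^C` would do). The windows of length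
`Y = n^(9/10)` with left ends in an interval `(y, y + h]` with a wrong number of primes all together force a mean square
of `≥ c Y²` on this interval, and the intervals of different `n` are disjoint. So all but `N / (log N)^U` of the `n ≤ N` are
regular (for the two intervals alone, exceptional sets of this kind are known with a power saving). The preimage tool is
`log_windows` of the file `Pool/Agent/N375/AV/L2.lean` (helper375).
-/

set_option autoImplicit false

namespace Pool.Agent.Results.MP_1e9cc8_nt.AsymptoticAdditiveValues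

open Filter Topology
open Pool.Agent.N733.TG (Expanding expanding_pow)
open Pool.Agent.N375.AV (PD comp log_windows logThin_of pd_additive pd_largest pd_kempner)

/-- Every interval `(y, y + h]` of integers in `[n² - n, n² + n]` with `h ≥ n / (log n)^A` contains between
`(1 - δ) h / (2 log n)` and `(1 + δ) h / (2 log n)` primes. -/
def Regular (A : ℕ) (δ : ℝ) (n : ℕ) : Prop :=
  ∀ y h : ℕ, (n : ℝ) / Real.log n ^ A ≤ h → n ^ 2 ≤ y + n → y + h ≤ n ^ 2 + n →
    (1 - δ) * (h / (2 * Real.log n)) ≤ (((Finset.Ioc y (y + h)).filter Nat.Prime).card : ℝ) ∧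
    (((Finset.Ioc y (y + h)).filter Nat.Prime).card : ℝ) ≤ (1 + δ) * (h / (2 * Real.log n))

/-- the two intervals of Oppermann of a regular number `n ≥ 3` -/
lemma oppermann {A : ℕ} {δ : ℝ} {n : ℕ} (hn : 3 ≤ n) (hr : Regular A δ n) :
    ((1 - δ) * (n / (2 * Real.log n)) ≤ (((Finset.Icc (n ^ 2 - n) (n ^ 2)).filter Nat.Prime).card : ℝ) ∧
      (((Finset.Icc (n ^ 2 - n) (n ^ 2)).filter Nat.Prime).card : ℝ) ≤ (1 + δ) * (n / (2 * Real.log n))) ∧
    ((1 - δ) * (n / (2 * Real.log n)) ≤ (((Finset.Icc (n ^ 2) (n ^ 2 + n)).filter Nat.Prime).card : ℝ) ∧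
      (((Finset.Icc (n ^ 2) (n ^ 2 + n)).filter Nat.Prime).card : ℝ) ≤ (1 + δ) * (n / (2 * Real.log n))) := by
  have hn3 : (3 : ℝ) ≤ n := by exact_mod_cast hn
  have hlog : 1 ≤ Real.log n := by
    rw [Real.le_log_iff_exp_le (by linarith)]
    have := Real.exp_one_lt_d9
    linarith
  have h1 : (n : ℝ) / Real.log n ^ A ≤ (n : ℕ) := by
    apply div_le_self (by linarith)
    exact one_le_pow₀ hlog
  have hnn : n ≤ n ^ 2 := by nlinarith
  have hp1 : ¬ (n ^ 2 - n).Prime := by
    rw [show n ^ 2 - n = n * (n - 1) by rw [Nat.mul_sub, mul_one, pow_two]]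
    exact Nat.not_prime_mul (by omega) (by omega)
  have hp2 : ¬ (n ^ 2).Prime := by
    rw [pow_two]
    exact Nat.not_prime_mul (by omega) (by omega)
  have e1 : (Finset.Icc (n ^ 2 - n) (n ^ 2)).filter Nat.Prime =
      (Finset.Ioc (n ^ 2 - n) (n ^ 2 - n + n)).filter Nat.Prime := by
    ext t
    rw [Finset.mem_filter, Finset.mem_filter, Finset.mem_Icc, Finset.mem_Ioc]
    constructor
    · rintro ⟨⟨h2, h3⟩, h4⟩
      refine ⟨⟨lt_of_le_of_ne h2 ?_, by omega⟩, h4⟩
      intro h5
      exact hp1 (h5 ▸ h4)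
    · rintro ⟨⟨h2, h3⟩, h4⟩
      exact ⟨⟨h2.le, by omega⟩, h4⟩
  have e2 : (Finset.Icc (n ^ 2) (n ^ 2 + n)).filter Nat.Prime = (Finset.Ioc (n ^ 2) (n ^ 2 + n)).filter Nat.Prime := by
    ext t
    rw [Finset.mem_filter, Finset.mem_filter, Finset.mem_Icc, Finset.mem_Ioc]
    constructor
    · rintro ⟨⟨h2, h3⟩, h4⟩
      refine ⟨⟨lt_of_le_of_ne h2 ?_, h3⟩, h4⟩
      intro h5
      exact hp2 (h5 ▸ h4)
    · rintro ⟨⟨h2, h3⟩, h4⟩
      exact ⟨⟨h2.le, h3⟩, h4⟩
  rw [e1, e2]
  exact ⟨hr (n ^ 2 - n) n h1 (by omega) (by omega), hr (n ^ 2) n h1 (by omega) (by omega)⟩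

/-- **Theorem.** (1) If `n ≥ 3` is regular (for some `A` and `δ`), each of the two intervals `[n² - n, n²]` and `[n², n² + n]`
contains between `(1 - δ) n / (2 log n)` and `(1 + δ) n / (2 log n)` primes. (2) Let `A` and `δ > 0` be given, let `F = comp fs`
be a composition of functions dominated by the largest prime factor (`PD`), and let `G` have steps `≥ a > 0` and growth at most
linear. For all `W` and `U` and all large `N`, for all `m ≤ N` but at most `N / (log N)^U`, EVERY `n` with
`|n - G(F m)| ≤ (1 + log (F m))^W` is regular. (3) Functions `f` which are additive (on coprime arguments), with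
`f(q^j) ≤ C q^j` and injective at the large primes, are dominated by the largest prime factor; so are the largest prime factor
and Kempner's function. `a v` with `a > 0` is an example of `G`. -/
theorem result :
    (∀ (A : ℕ) (δ : ℝ) (n : ℕ), 3 ≤ n → Regular A δ n →
      ((1 - δ) * (n / (2 * Real.log n)) ≤ (((Finset.Icc (n ^ 2 - n) (n ^ 2)).filter Nat.Prime).card : ℝ) ∧
        (((Finset.Icc (n ^ 2 - n) (n ^ 2)).filter Nat.Prime).card : ℝ) ≤ (1 + δ) * (n / (2 * Real.log n))) ∧
      ((1 - δ) * (n / (2 * Real.log n)) ≤ (((Finset.Icc (n ^ 2) (n ^ 2 + n)).filter Nat.Prime).card : ℝ) ∧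
        (((Finset.Icc (n ^ 2) (n ^ 2 + n)).filter Nat.Prime).card : ℝ) ≤ (1 + δ) * (n / (2 * Real.log n)))) ∧
    (∀ (A : ℕ) (δ : ℝ), 0 < δ → ∀ fs : List (ℕ → ℕ), (∀ f ∈ fs, PD f) → ∀ G : ℕ → ℝ, Expanding G 1 → ∀ W U : ℕ,
      ∃ N₀ : ℕ, ∀ N : ℕ, N₀ ≤ N →
        ({m : ℕ | 1 ≤ m ∧ m ≤ N ∧ ¬ ∀ n : ℕ, |(n : ℝ) - G (comp fs m)| ≤ (1 + Real.log (comp fs m)) ^ W →
          Regular A δ n}.ncard : ℝ) ≤ N / Real.log N ^ U) ∧
    ((∀ f : ℕ → ℕ, (∀ a b : ℕ, Nat.Coprime a b → f (a * b) = f a + f b) →
        (∃ C : ℕ, ∀ q j : ℕ, q.Prime → 1 ≤ j → f (q ^ j) ≤ C * q ^ j) →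
        (∃ P : ℕ, ∀ p q : ℕ, p.Prime → q.Prime → P ≤ p → P ≤ q → f p = f q → p = q) → PD f) ∧
      PD (fun n => n.primeFactors.sup id) ∧ PD (fun n => sInf {k : ℕ | n ∣ k.factorial})) ∧
    ∀ a : ℝ, 0 < a → Expanding (fun v => a * (v : ℝ) ^ (1 : ℝ)) 1 := by
  classical
  refine ⟨fun A δ n hn hr => oppermann hn hr, fun A δ hδ fs hfs G hG W U => ?_,
    ⟨fun f h1 h2 h3 => pd_additive h1 h2 h3, pd_largest, pd_kempner⟩, fun a ha => expanding_pow ha le_rfl⟩
  have hE : Pool.Agent.N375.AV.LogThin {n : ℕ | ¬ Regular A δ n} := by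
    refine logThin_of (fun B => ?_)
    obtain ⟨X₀, hX₀⟩ := Pool.Agent.V8H12.OP.few_not_asym Pool.Agent.V8H54.RS.sic_all A hδ ⌈B⌉₊
    refine ⟨max X₀ 3, fun X hX => ?_⟩
    have h1 := hX₀ X ((le_max_left _ _).trans hX)
    have hX3 : 3 ≤ X := (le_max_right _ _).trans hX
    have hX3' : (3 : ℝ) ≤ X := by exact_mod_cast hX3
    have hlog : 1 ≤ Real.log X := by
      rw [Real.le_log_iff_exp_le (by linarith)]
      have := Real.exp_one_lt_d9
      linarith
    refine le_trans (le_of_eq ?_) (h1.trans ?_)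
    · congr 2
      ext n
      simp only [Finset.mem_filter]
      exact Iff.rfl
    · apply div_le_div_of_nonneg_left (by linarith) (by positivity)
      rw [← Real.rpow_natCast]
      exact Real.rpow_le_rpow_of_exponent_le hlog (Nat.le_ceil B)
  obtain ⟨N₀, hN₀⟩ := log_windows hE fs hfs hG W U
  refine ⟨N₀, fun N hN => le_trans (le_of_eq ?_) (hN₀ N hN)⟩
  congr 2
  ext m
  simp only [Set.mem_ofPred_eq]
  constructor
  · rintro ⟨h1, h2, h3⟩
    push Not at h3
    obtain ⟨n, h4, h5⟩ := h3
    exact ⟨h1, h2, n, h5, h4⟩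
  · rintro ⟨h1, h2, n, h5, h4⟩
    exact ⟨h1, h2, fun h3 => h5 (h3 n h4)⟩

end Pool.Agent.Results.MP_1e9cc8_nt.AsymptoticAdditiveValues
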