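import Pool.Agent.Q278.KT.Fin
import Pool.Agent.Y677.RSZ.Top
import Pool.Agent.V8H4.OP.Prog
import Pool.Agent.V8H4.OP.Poor

/-!
# MP_1e9cc8_nt: the `k`-fold Oppermann conjecture for all `n` outside one small set, with narrow progressions

The question is whether for every `k` and all `n > N(k)` both intervals `[n² - n, n²]` and `[n², n² + n]`
contain at least `k` primes.

There is ONE set `E` of integers, with at most `N ^ (0.612 - η)` elements up to `N`, such that the following
holds for every `k` and `ε > 0`, with some `B` and all large `n`, for EVERY subinterval `(y, y + h]` of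
`[n² - n, n² + n]` of length `h ≥ n ^ (1 - η)` (for instance immediately before or after `n²`):

* all but at most `ε h / log n` of its primes are terms of a `k`-term arithmetic progression of primes of the
  same interval whose common difference is at most `(log n) ^ B`;
* if `n ∉ E`, then it contains at least `c h / log n` primes, where `c` is an absolute constant.

So for `n ∉ E` each of the two intervals contains at least `k` primes, and indeed `k` primes in arithmetic
progression within a power of `log n`; and for every large `n`, in `E` or not, an interval with at least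
`ε n / log n` primes contains such a progression.

From the starting files: the bound for the number of poor intervals (`Pool.Agent.Q278.KT`, Heath-Brown's
identity and large values of Dirichlet polynomials) and Szemerédi's theorem relative to sifted sets
(`Pool.Agent.Y677.RSZ`).
-/

set_option autoImplicit false

open Filter

namespace Pool.Agent.Results.MP_1e9cc8_nt.NarrowProgressions

open Pool.Agent.V8H4.OP (primesIn InProg)

open Classical in
/-- **Theorem.** There are a set `E` and `c, η > 0` such that `E` has at most `N ^ (0.612 - η)` elements up to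
`N`, for large `N`, and for all `k ≥ 2` and `ε > 0` there are `B` and `n₀` such that for all `n ≥ n₀` and every
subinterval `(y, y + h]` of `[n² - n, n² + n]` with `h ≥ n ^ (1 - η)`: all but at most `ε h / log n` of the
primes of `(y, y + h]` are terms of a `k`-term arithmetic progression of primes of `(y, y + h]` with common
difference at most `(log n) ^ B`, and if `n ∉ E` then `(y, y + h]` contains at least `c h / log n` primes. -/
theorem result : ∃ (E : Set ℕ) (c η : ℝ), 0 < c ∧ 0 < η ∧
    (∀ᶠ N : ℕ in atTop, ((E ∩ Set.Icc 1 N).ncard : ℝ) ≤ (N : ℝ) ^ (0.612 - η)) ∧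
    ∀ (k : ℕ) (ε : ℝ), 2 ≤ k → 0 < ε → ∃ B n₀ : ℕ, ∀ n : ℕ, n₀ ≤ n →
      ∀ y h : ℕ, (n : ℝ) ^ (1 - η) ≤ h → n ^ 2 - n ≤ y → y + h ≤ n ^ 2 + n →
        (((primesIn y h).filter (fun p => ¬ InProg k (Real.log n ^ B) y h p)).card : ℝ) ≤
          ε * (h / Real.log n) ∧
        (n ∉ E → c * (h / Real.log n) ≤ (primesIn y h).card) := by
  obtain ⟨c, η, hc, hη, hη1, hfew⟩ := Pool.Agent.V8H4.OP.few_poor Pool.Agent.Q278.KT.mainp_half
  refine ⟨{n | Pool.Agent.V8H4.OP.Poor c η n}, c, η, hc, hη, hfew, fun k ε hk hε => ?_⟩
  obtain ⟨B, n₀, hB⟩ := Pool.Agent.V8H4.OP.prog Pool.Agent.Y677.RSZ.eng_all k ε hk hε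
  refine ⟨B, max n₀ 1, fun n hn y h hh hy hyh => ?_⟩
  have hn1 : (1 : ℝ) ≤ n := by exact_mod_cast (le_max_right _ _).trans hn
  have hy' : n ^ 2 ≤ y + n := Nat.sub_le_iff_le_add.1 hy
  refine ⟨hB n ((le_max_left _ _).trans hn) y h ?_ hy' hyh, fun hnE => ?_⟩
  · refine le_trans ?_ hh
    rw [Real.sqrt_eq_rpow]
    exact Real.rpow_le_rpow_of_exponent_le hn1 (by linarith)
  · by_contra hcon
    exact hnE ⟨y, h, hh, hy', hyh, not_le.1 hcon⟩

end Pool.Agent.Results.MP_1e9cc8_nt.NarrowProgressions
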