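import Pool.Agent.Q278.KT.Fin
import Pool.Agent.Y677.RSZ.Top
import Pool.Agent.V8H4.OP.Prog
import Pool.Agent.V8H4.OP.Poor
import Pool.Agent.V8H4.OP.Generic

/-!
# MP_1e9cc8_nt: the `k`-fold Oppermann conjecture for all integers near generic polynomial values

The question is whether for every `k` and all `n > N(k)` both intervals `[n² - n, n²]` and `[n², n² + n]`
contain at least `k` primes.

Let `v_i`, `i` in a countable set, be vectors in `ℝ^K`, `O(X^(τ + δ))` of them of norm at most `X` for every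
`δ > 0`: for instance `(1, m, …, m^d)` with `τ = 1 / d`, or `(b_1^(m_1), …, b_K^(m_K))`, `b_j > 1`, with
`τ = 0`. Let `0 ≤ θ < 1`. For all `α` in `ℝ^K` outside a set of Hausdorff dimension at most
`K - 1 + (0.612 - η + τ) / (1 - θ)` and all `w`, for all but finitely many `i`: EVERY positive integer `n`
with `|n - α · v_i| ≤ w ‖v_i‖^θ` has, for every given `k`, at least `k` primes in both intervals; more
precisely every subinterval of `[n² - n, n² + n]` of length `h ≥ n ^ (1 - η)` has at least `c h / log n`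
primes, and all but `ε h / log n` of them are in `k`-term progressions of primes of the subinterval with
common difference at most `(log n)^B`.

The bound for the dimension is less than `K` if `τ + θ < 0.388`: so for almost every real polynomial `P` of
degree at most `d`, `d ≥ 3`, the `k`-fold Oppermann conjecture holds for all integers within `m^(d/20)` of the
values `P(m)`, and for almost all `α` for all integers within `b^(0.388 m)` of `α b^m`, for large `m`.

Proof: the integers for which this fails up to `N` are at most `N ^ (0.612 - η)`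
(`Pool.Agent.V8H4.OP.few_poor`, from the starting files `Pool.Agent.Q278.KT`), and Hausdorff dimension of
the set of the `α` whose linear form is infinitely often near a thin set (`Pool.Agent.N251.LF`).
-/

set_option autoImplicit false

open Filter MeasureTheory

namespace Pool.Agent.Results.MP_1e9cc8_nt.NearGenericForms

open Pool.Agent.V8H4.OP (primesIn InProg)
open Pool.Agent.N251.LF (Fam)

/-- both intervals of `n` contain at least `k` primes -/
def Oppermann (k n : ℕ) : Prop :=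
  k ≤ ((Finset.Icc (n ^ 2 - n) (n ^ 2)).filter Nat.Prime).card ∧
    k ≤ ((Finset.Icc (n ^ 2) (n ^ 2 + n)).filter Nat.Prime).card

open Classical in
/-- every subinterval of `[n² - n, n² + n]` of length `h ≥ n ^ (1 - η)` has at least `c h / log n` primes, and
all but at most `ε h / log n` of its primes are in `k`-term progressions of primes of the subinterval with
common difference at most `(log n) ^ B` -/
def Rich (c η : ℝ) (k : ℕ) (ε : ℝ) (B n : ℕ) : Prop :=
  ∀ y h : ℕ, (n : ℝ) ^ (1 - η) ≤ h → n ^ 2 - n ≤ y → y + h ≤ n ^ 2 + n →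
    c * (h / Real.log n) ≤ (primesIn y h).card ∧
    (((primesIn y h).filter (fun p => ¬ InProg k (Real.log n ^ B) y h p)).card : ℝ) ≤
      ε * (h / Real.log n)

/-- `n` is a positive integer within `w ‖v‖ ^ θ` of the value `∑ α_j v_j` -/
def Near {K : ℕ} (v α : Fin K → ℝ) (θ w : ℝ) (n : ℕ) : Prop :=
  0 < n ∧ |(n : ℝ) - ∑ j, α j * v j| ≤ w * ‖v‖ ^ θ

/-- a rich `n` satisfies the `k`-fold conjecture, if it is large -/
lemma oppermann_of_rich {c η : ℝ} (hc : 0 < c) (hη : 0 < η) (k : ℕ) : ∃ n₀ : ℕ, ∀ n : ℕ, n₀ ≤ n →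
    (∀ y h : ℕ, (n : ℝ) ^ (1 - η) ≤ h → n ^ 2 - n ≤ y → y + h ≤ n ^ 2 + n →
      c * (h / Real.log n) ≤ (primesIn y h).card) → Oppermann k n := by
  have h1 := Pool.Agent.V8H4.OP.tendsto_div_log
  obtain ⟨n₀, hn₀⟩ := eventually_atTop.1 (h1.eventually_ge_atTop (k / c))
  refine ⟨max n₀ 1, fun n hn H => ?_⟩
  have hn1 : 1 ≤ n := (le_max_right _ _).trans hn
  have hnr : (1 : ℝ) ≤ n := by exact_mod_cast hn1
  have h2 := hn₀ n ((le_max_left _ _).trans hn)
  rw [div_le_iff₀' hc] at h2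
  have hle : (n : ℝ) ^ (1 - η) ≤ n := by
    calc (n : ℝ) ^ (1 - η) ≤ (n : ℝ) ^ (1 : ℝ) := Real.rpow_le_rpow_of_exponent_le hnr (by linarith)
      _ = n := Real.rpow_one _
  have hsq : n ≤ n ^ 2 := Nat.le_self_pow two_ne_zero n
  have key : ∀ y : ℕ, n ^ 2 - n ≤ y → y + n ≤ n ^ 2 + n →
      k ≤ ((Finset.Icc y (y + n)).filter Nat.Prime).card := by
    intro y hy hyn
    have h3 := h2.trans (H y n hle hy hyn)
    have h4 : (primesIn y n).card ≤ ((Finset.Icc y (y + n)).filter Nat.Prime).card :=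
      Finset.card_le_card (Finset.filter_subset_filter _ Finset.Ioc_subset_Icc_self)
    have h5 : ((primesIn y n).card : ℝ) ≤ ((Finset.Icc y (y + n)).filter Nat.Prime).card := by
      exact_mod_cast h4
    exact_mod_cast h3.trans h5
  constructor
  · have := key (n ^ 2 - n) le_rfl (by omega)
    rwa [Nat.sub_add_cancel hsq] at this
  · exact key (n ^ 2) (Nat.sub_le _ _) le_rfl

/-- **Theorem.** There are `c, η > 0` such that for all families `v` of vectors in `ℝ^K` of exponent `τ` and all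
`0 ≤ θ < 1`: for all `α` outside a set of Hausdorff dimension at most
`K - 1 + (0.612 - η + τ) / (1 - θ)`: for all `k`, `ε > 0` there is `B` such that for all `w` and all but
finitely many `i` all positive integers `n` within `w ‖v i‖ ^ θ` of `∑ α_j v_(i,j)` are rich and satisfy the
`k`-fold Oppermann conjecture. In particular for almost all real polynomials of degree at most `d`, `d ≥ 3`,
for all positive integers within `w m ^ (d / 20)` of the value at `m`. The families of powers of integers have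
exponent `1 / d`, those of powers `b_j ^ m` exponent `0`. -/
theorem result : ∃ c η : ℝ, 0 < c ∧ 0 < η ∧
    (∀ (K : ℕ) (ι : Type) (v : ι → Fin K → ℝ) (τ θ : ℝ), Fam v τ → 0 ≤ τ → 0 ≤ θ → θ < 1 →
      ∃ E : Set (Fin K → ℝ), dimH E ≤ ENNReal.ofReal ((K : ℝ) - 1 + (0.612 - η + τ) / (1 - θ)) ∧
        ∀ α, α ∉ E → ∀ (k : ℕ) (ε : ℝ), 2 ≤ k → 0 < ε → ∃ B : ℕ, ∀ w : ℝ,
          {i | ¬ ∀ n : ℕ, Near (v i) α θ w n → Rich c η k ε B n ∧ Oppermann k n}.Finite) ∧
    (∀ d : ℕ, 3 ≤ d → ∀ᵐ α : Fin (d + 1) → ℝ, ∀ (k : ℕ) (w : ℝ), ∀ᶠ m : ℕ in atTop, ∀ n : ℕ, 0 < n →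
      |(n : ℝ) - ∑ j, α j * (m : ℝ) ^ (j : ℕ)| ≤ w * (m : ℝ) ^ ((d : ℝ) / 20) → Oppermann k n) ∧
    (∀ d : ℕ, 1 ≤ d → Fam (fun (m : ℕ) (j : Fin (d + 1)) => (m : ℝ) ^ (j : ℕ)) (1 / d)) ∧
    (∀ (K : ℕ) (b : Fin K → ℝ), (∀ j, 1 < b j) →
      Fam (fun (m : Fin K → ℕ) (j : Fin K) => b j ^ m j) 0) := by
  obtain ⟨c, η, hc, hη, hη1, hfew⟩ := Pool.Agent.V8H4.OP.few_poor Pool.Agent.Q278.KT.mainp_half
  have main : ∀ (K : ℕ) (ι : Type) (v : ι → Fin K → ℝ) (τ θ : ℝ), Fam v τ → 0 ≤ τ → 0 ≤ θ → θ < 1 →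
      ∃ E : Set (Fin K → ℝ), dimH E ≤ ENNReal.ofReal ((K : ℝ) - 1 + (0.612 - η + τ) / (1 - θ)) ∧
        ∀ α, α ∉ E → ∀ (k : ℕ) (ε : ℝ), 2 ≤ k → 0 < ε → ∃ B : ℕ, ∀ w : ℝ,
          {i | ¬ ∀ n : ℕ, Near (v i) α θ w n → Rich c η k ε B n ∧ Oppermann k n}.Finite := by
    intro K ι v τ θ hv hτ hθ0 hθ
    obtain ⟨E, hE, hE2⟩ := Pool.Agent.V8H4.OP.near_forms {n | Pool.Agent.V8H4.OP.Poor c η n}
      (s := 0.612 - η) (by linarith) hfew v hτ hθ0 hθ hv
    refine ⟨E, hE, fun α hα k ε hk hε => ?_⟩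
    obtain ⟨B, n₀, hB⟩ := Pool.Agent.V8H4.OP.prog Pool.Agent.Y677.RSZ.eng_all k ε hk hε
    obtain ⟨n₁, hn₁⟩ := oppermann_of_rich hc hη k
    refine ⟨B, fun w => (hE2 α hα w (max (max n₀ n₁) 1)).subset fun i hi hcon => hi fun n hn => ?_⟩
    obtain ⟨hn1, hn2⟩ := hcon n hn.1 hn.2
    have hnr : (1 : ℝ) ≤ n := by exact_mod_cast (le_max_right _ _).trans hn1
    have hrich : Rich c η k ε B n := by
      intro y h hh hy hyh
      have hy' : n ^ 2 ≤ y + n := Nat.sub_le_iff_le_add.1 hy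
      refine ⟨?_, hB n (((le_max_left _ _).trans (le_max_left _ _)).trans hn1) y h ?_ hy' hyh⟩
      · by_contra hcon2
        exact hn2 ⟨y, h, hh, hy', hyh, not_le.1 hcon2⟩
      · refine le_trans ?_ hh
        rw [Real.sqrt_eq_rpow]
        exact Real.rpow_le_rpow_of_exponent_le hnr (by linarith)
    exact ⟨hrich, hn₁ n (((le_max_right _ _).trans (le_max_left _ _)).trans hn1)
      fun y h h1 h2 h3 => (hrich y h h1 h2 h3).1⟩
  obtain ⟨ex1, ex2, -⟩ := Pool.Agent.N251.LF.examples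
  refine ⟨c, η, hc, hη, main, fun d hd => ?_, ex1, ex2⟩
  have hd0 : (3 : ℝ) ≤ d := by exact_mod_cast hd
  have hd1 : (1 : ℝ) / d ≤ 1 / 3 := one_div_le_one_div_of_le (by norm_num) hd0
  have hd2 : (0 : ℝ) ≤ 1 / d := by positivity
  obtain ⟨E, hE, hE2⟩ := main (d + 1) ℕ (fun (m : ℕ) (j : Fin (d + 1)) => (m : ℝ) ^ (j : ℕ)) (1 / d)
    (1 / 20) (ex1 d (by omega)) hd2 (by norm_num) (by norm_num)
  have hE0 : volume E = 0 := by
    have h1 : dimH E < (d + 1 : ℕ) := by
      refine lt_of_le_of_lt hE ?_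
      rw [← ENNReal.ofReal_natCast]
      refine (ENNReal.ofReal_lt_ofReal_iff (by positivity)).2 ?_
      push_cast
      have : (0.612 - η + 1 / (d : ℝ)) / (1 - 1 / 20) < 1 := by
        rw [div_lt_one (by norm_num)]
        norm_num at hd1 ⊢
        linarith
      linarith
    exact Pool.Agent.V8H4.OP.null_of_dimH h1
  rw [ae_iff]
  refine measure_mono_null (fun α hα => ?_) hE0
  by_contra hαE
  refine hα fun k w => ?_
  obtain ⟨B, hB⟩ := hE2 α hαE (max k 2) 1 (le_max_right _ _) one_pos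
  have h1 := hB |w|
  have h2 : ∀ᶠ m : ℕ in atTop, m ∉ {i | ¬ ∀ n : ℕ, Near ((fun (m : ℕ) (j : Fin (d + 1)) =>
      (m : ℝ) ^ (j : ℕ)) i) α (1 / 20) |w| n → Rich c η (max k 2) 1 B n ∧ Oppermann (max k 2) n} := by
    rw [← Nat.cofinite_eq_atTop]
    exact h1.compl_mem_cofinite
  filter_upwards [h2, eventually_ge_atTop 1] with m hm hm1 n hn hnw
  have hm' := not_not.1 hm n ⟨hn, hnw.trans ?_⟩
  · exact ⟨(le_max_left _ _).trans hm'.2.1, (le_max_left _ _).trans hm'.2.2⟩
  · have hm1r : (1 : ℝ) ≤ m := by exact_mod_cast hm1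
    have h3 : (m : ℝ) ^ d ≤ ‖fun j : Fin (d + 1) => (m : ℝ) ^ (j : ℕ)‖ := by
      have := norm_le_pi_norm (fun j : Fin (d + 1) => (m : ℝ) ^ (j : ℕ)) (Fin.last d)
      simpa using this
    have h4 : (m : ℝ) ^ ((d : ℝ) / 20) = ((m : ℝ) ^ d) ^ (1 / 20 : ℝ) := by
      rw [← Real.rpow_natCast, ← Real.rpow_mul (by positivity)]
      ring_nf
    rw [h4]
    calc w * ((m : ℝ) ^ d) ^ (1 / 20 : ℝ) ≤ |w| * ((m : ℝ) ^ d) ^ (1 / 20 : ℝ) :=
          mul_le_mul_of_nonneg_right (le_abs_self w) (by positivity)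
      _ ≤ |w| * ‖fun j : Fin (d + 1) => (m : ℝ) ^ (j : ℕ)‖ ^ (1 / 20 : ℝ) := by
          apply mul_le_mul_of_nonneg_left _ (abs_nonneg w)
          exact Real.rpow_le_rpow (by positivity) h3 (by norm_num)

end Pool.Agent.Results.MP_1e9cc8_nt.NearGenericForms
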