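import Pool.Agent.V8H4.OP.Poor
import Pool.Agent.Q278.KT.Fin
import Pool.Agent.N760.IT.C

/-!
# Oppermann's intervals of all integers near the members of almost all orbits of Euler's function, and near the values of
# multiplicative functions

Let `I(n) = [n² - n, n² + n]`. There are absolute constants `c, η > 0` with the following property. Call `n` rich if EVERY
interval `(y, y + h] ⊆ [n² - n, n² + n]` of integers with `h ≥ n ^ (1 - η)` contains at least `c h / log n` primes. If a large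
`n` is rich, both intervals of Oppermann, `[n² - n, n²]` and `[n², n² + n]`, contain at least `k` primes.

Let `φ_k` be the `k`-th iterate of Euler's function, `φ_0(m) = m`. Let `f` be a positive multiplicative function of at most
polynomial growth such that `f p ≤ M p` for the large primes `p`, with different values at different large primes; for example
the identity, Euler's function or the sum of the divisors. Let `d ≥ 1`, `κ ≥ 0` and `0.612 d + κ ≤ 1`. There is `K(m)` tending to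
infinity such that for almost all `m`, for all `k ≤ K(m)`, with `v = f(φ_k(m))`, EVERY `n ≥ 1` with `|n - α v^d| ≤ v^κ` is rich;
and for `v = f(m)` this holds for all `m ≤ N` but `N / (log N)^U`, for every `U`. More generally `G v` takes the place of
`α v^d`, where `G` is any function with steps bounded below by a positive constant and growth at most `v^d`. The iterates of
Euler's function are not multiplicative, their values form a thin set and are taken with very large multiplicities, and so this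
does not follow from the number `N ^ (0.612 - η)` of the `n ≤ N` which are not rich.

The number of the `n ≤ N` which are not rich is `few_poor` of helper4 (`Pool/Agent/V8H4/OP`), from the starting theorem
`mainp_half` (`Pool/Agent/Q278/KT`, helper278). The tools are `Pool/Agent/N760/IT` (helper760) and `Pool/Agent/N733/TG`
(helper733).
-/

set_option autoImplicit false

namespace Pool.Agent.Results.MP_1e9cc8_nt.TotientOrbits

open Finset Filter Topology
open Pool.Agent.N733.TG (LM Expanding lm_totient lm_sigma keep_good_nat expanding_pow)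
open Pool.Agent.N760.IT (orb lm_id orbit_good_nat)
open Pool.Agent.N826.IT.Orb (AlmostAll almostAll_mono)

/-- Every interval `(y, y + h]` of integers in `[n² - n, n² + n]` with `h ≥ n ^ (1 - η)` contains at least `c h / log n`
primes. -/
def Rich (c η : ℝ) (n : ℕ) : Prop :=
  ∀ y h : ℕ, (n : ℝ) ^ (1 - η) ≤ h → n ^ 2 ≤ y + n → y + h ≤ n ^ 2 + n →
    c * (h / Real.log n) ≤ (((Finset.Ioc y (y + h)).filter Nat.Prime).card : ℝ)

lemma rich_of {c η : ℝ} {n : ℕ} (h : ¬ Pool.Agent.V8H4.OP.Poor c η n) : Rich c η n := by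
  intro y t h1 h2 h3
  by_contra h4
  exact h ⟨y, t, h1, h2, h3, not_le.1 h4⟩

lemma poor_of {c η : ℝ} {n : ℕ} (h : ¬ Rich c η n) : Pool.Agent.V8H4.OP.Poor c η n := by
  by_contra h4
  exact h (rich_of h4)

/-- a large rich number has `k` primes in both intervals -/
lemma oppermann {c η : ℝ} (hc : 0 < c) (hη : 0 < η) (k : ℕ) : ∃ N : ℕ, ∀ n : ℕ, N ≤ n → Rich c η n →
    k ≤ ((Finset.Icc (n ^ 2 - n) (n ^ 2)).filter Nat.Prime).card ∧
    k ≤ ((Finset.Icc (n ^ 2) (n ^ 2 + n)).filter Nat.Prime).card := by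
  have h1 := (Real.isLittleO_log_id_atTop).bound (c := c / (k + 1)) (by positivity)
  obtain ⟨x₀, hx₀⟩ := eventually_atTop.1 (tendsto_natCast_atTop_atTop.eventually h1)
  refine ⟨max x₀ 3, fun n hn hr => ?_⟩
  have hn3 : 3 ≤ n := (le_max_right _ _).trans hn
  have hn0 : (0 : ℝ) < n := by exact_mod_cast (by omega : 0 < n)
  have hn1 : (1 : ℝ) ≤ n := by exact_mod_cast (by omega : 1 ≤ n)
  have hlog : 0 < Real.log n := Real.log_pos (by exact_mod_cast (by omega : 1 < n))
  have h2 := hx₀ n ((le_max_left _ _).trans hn)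
  simp only [id, Real.norm_eq_abs, abs_of_pos hlog, abs_of_pos hn0] at h2
  have h3 : ((k : ℝ) + 1) ≤ c * (n / Real.log n) := by
    rw [← mul_div_assoc, le_div_iff₀ hlog]
    have h4 : ((k : ℝ) + 1) * Real.log n ≤ (k + 1) * (c / (k + 1) * n) :=
      mul_le_mul_of_nonneg_left h2 (by positivity)
    refine h4.trans (le_of_eq ?_)
    field_simp
  have h5 : (n : ℝ) ^ (1 - η) ≤ (n : ℕ) := by
    calc (n : ℝ) ^ (1 - η) ≤ (n : ℝ) ^ (1 : ℝ) := Real.rpow_le_rpow_of_exponent_le hn1 (by linarith)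
      _ = n := Real.rpow_one _
  have hnn : n ≤ n ^ 2 := by nlinarith
  constructor
  · have h6 := hr (n ^ 2 - n) n h5 (by omega) (by omega)
    have h7 : ((k : ℝ)) ≤ (((Finset.Ioc (n ^ 2 - n) (n ^ 2 - n + n)).filter Nat.Prime).card : ℝ) := by linarith
    have h8 : k ≤ ((Finset.Ioc (n ^ 2 - n) (n ^ 2 - n + n)).filter Nat.Prime).card := by exact_mod_cast h7
    refine h8.trans (card_le_card (filter_subset_filter _ ?_))
    intro x hx
    rw [Finset.mem_Ioc] at hx
    rw [Finset.mem_Icc]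
    omega
  · have h6 := hr (n ^ 2) n h5 (by omega) (by omega)
    have h7 : ((k : ℝ)) ≤ (((Finset.Ioc (n ^ 2) (n ^ 2 + n)).filter Nat.Prime).card : ℝ) := by linarith
    have h8 : k ≤ ((Finset.Ioc (n ^ 2) (n ^ 2 + n)).filter Nat.Prime).card := by exact_mod_cast h7
    refine h8.trans (card_le_card (filter_subset_filter _ ?_))
    intro x hx
    rw [Finset.mem_Ioc] at hx
    rw [Finset.mem_Icc]
    omega

/-- the number of the integers which are not rich, in the form needed -/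
lemma cnt {c η : ℝ} (hN : ∀ᶠ N : ℕ in atTop,
      (({n : ℕ | Pool.Agent.V8H4.OP.Poor c η n} ∩ Set.Icc 1 N).ncard : ℝ) ≤ (N : ℝ) ^ (0.612 - η)) (hη : η ≤ 1 / 2) :
    ∀ ε : ℝ, 0 < ε → ∃ C : ℝ, ∀ X : ℕ, 1 ≤ X →
      ({t : ℕ | 1 ≤ t ∧ t ≤ X ∧ (fun _ : ℕ => True) t ∧ ¬ Rich c η t}.ncard : ℝ) ≤ C * (X : ℝ) ^ ((0.612 - η) + ε) := by
  intro ε hε
  obtain ⟨N₀, h0⟩ := eventually_atTop.1 hN
  refine ⟨N₀ + 1, fun X hX => ?_⟩
  have hX1 : (1 : ℝ) ≤ X := by exact_mod_cast hX
  have h1 : (1 : ℝ) ≤ (X : ℝ) ^ ((0.612 - η) + ε) := Real.one_le_rpow hX1 (by linarith)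
  have hfin : (Set.Icc 1 X).Finite := Set.finite_Icc 1 X
  by_cases hXN : N₀ ≤ X
  · have h2 := h0 X hXN
    have h3 : {t : ℕ | 1 ≤ t ∧ t ≤ X ∧ (fun _ : ℕ => True) t ∧ ¬ Rich c η t}.ncard ≤
        ({n : ℕ | Pool.Agent.V8H4.OP.Poor c η n} ∩ Set.Icc 1 X).ncard := by
      refine Set.ncard_le_ncard ?_ (hfin.inter_of_right _)
      rintro t ⟨h4, h5, -, h6⟩
      exact ⟨poor_of h6, h4, h5⟩
    calc (({t : ℕ | 1 ≤ t ∧ t ≤ X ∧ (fun _ : ℕ => True) t ∧ ¬ Rich c η t}.ncard : ℕ) : ℝ)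
        ≤ (({n : ℕ | Pool.Agent.V8H4.OP.Poor c η n} ∩ Set.Icc 1 X).ncard : ℝ) := by exact_mod_cast h3
      _ ≤ (X : ℝ) ^ (0.612 - η) := h2
      _ ≤ (X : ℝ) ^ ((0.612 - η) + ε) := Real.rpow_le_rpow_of_exponent_le hX1 (by linarith)
      _ ≤ (N₀ + 1) * (X : ℝ) ^ ((0.612 - η) + ε) := by
          have : (0 : ℝ) ≤ N₀ := Nat.cast_nonneg _
          nlinarith
  · have h3 : {t : ℕ | 1 ≤ t ∧ t ≤ X ∧ (fun _ : ℕ => True) t ∧ ¬ Rich c η t}.ncard ≤ (Set.Icc 1 X).ncard := by
      refine Set.ncard_le_ncard ?_ hfin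
      rintro t ⟨h4, h5, -⟩
      exact ⟨h4, h5⟩
    have h4 : (Set.Icc 1 X).ncard = X := by
      rw [← Finset.coe_Icc, Set.ncard_coe_finset, Nat.card_Icc]
      omega
    rw [h4] at h3
    have h5 : (({t : ℕ | 1 ≤ t ∧ t ≤ X ∧ (fun _ : ℕ => True) t ∧ ¬ Rich c η t}.ncard : ℕ) : ℝ) ≤ X := by
      exact_mod_cast h3
    have h6 : (X : ℝ) ≤ N₀ := by exact_mod_cast (by omega : X ≤ N₀)
    have h7 : (0 : ℝ) ≤ N₀ := Nat.cast_nonneg _
    nlinarith

/-- **Theorem.** There are `c > 0` and `0 < η ≤ 1/2` with the following properties. (1) For every `k`, a large rich `n` has at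
least `k` primes in `[n² - n, n²]` and at least `k` primes in `[n², n² + n]`. (2) Let `f` be multiplicative and positive, of at
most polynomial growth, with `f p ≤ M p` at the large primes, and injective there (`LM`). Let `G` have steps `≥ a > 0` and
growth at most `v^d`. Let `κ ≥ 0` and `0.612 d + κ ≤ 1`. There is `K : ℕ → ℕ` tending to infinity such that for almost all
`m`, for all `k ≤ K(m)`, with `v = f(φ_k(m))` (`orb f k m`), EVERY `n ≥ 1` with `|n - G v| ≤ v^κ` is rich: every interval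
`(y, y + h]` of integers in `[n² - n, n² + n]` with `h ≥ n ^ (1 - η)` contains at least `c h / log n` primes. For every `U` and
all large `N` this holds for `v = f(m)`, for all `m ≤ N` but `N / (log N)^U`. (3) The identity, Euler's function and the sum of
the divisors are examples of such functions `f`, and `α v^d` with `α > 0`, `d ≥ 1` is an example of `G`. -/
theorem result : ∃ c η : ℝ, 0 < c ∧ 0 < η ∧ η ≤ 1 / 2 ∧
    (∀ k : ℕ, ∃ N : ℕ, ∀ n : ℕ, N ≤ n → Rich c η n →
      k ≤ ((Finset.Icc (n ^ 2 - n) (n ^ 2)).filter Nat.Prime).card ∧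
      k ≤ ((Finset.Icc (n ^ 2) (n ^ 2 + n)).filter Nat.Prime).card) ∧
    (∀ f : ℕ → ℕ, LM f → ∀ (G : ℕ → ℝ) (d : ℝ), Expanding G d → ∀ κ : ℝ, 0 ≤ κ → 0.612 * d + κ ≤ 1 →
      (∃ K : ℕ → ℕ, Tendsto K atTop atTop ∧
        AlmostAll (fun m => ∀ k ≤ K m, ∀ n : ℕ, 1 ≤ n → |(n : ℝ) - G (orb f k m)| ≤ (orb f k m : ℝ) ^ κ →
          Rich c η n)) ∧
      ∀ U : ℕ, ∃ N₀ : ℕ, ∀ N : ℕ, N₀ ≤ N →
        ({m : ℕ | 1 ≤ m ∧ m ≤ N ∧ ¬ ∀ n : ℕ, 1 ≤ n → |(n : ℝ) - G (f m)| ≤ (f m : ℝ) ^ κ →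
          Rich c η n}.ncard : ℝ) ≤ N / Real.log N ^ U) ∧
    (LM (fun m => m) ∧ LM Nat.totient ∧ LM (fun m => ∑ d ∈ m.divisors, d)) ∧
    ∀ α d : ℝ, 0 < α → 1 ≤ d → Expanding (fun v => α * (v : ℝ) ^ d) d := by
  obtain ⟨c, η, hc, hη, hη0, hN⟩ := Pool.Agent.V8H4.OP.few_poor Pool.Agent.Q278.KT.mainp_half
  have hη1 : η ≤ 1 / 2 := by linarith
  have hs : (0 : ℝ) ≤ 0.612 - η := by linarith
  refine ⟨c, η, hc, hη, hη1, oppermann hc hη, fun f hf G d hG κ hκ h2 => ?_,
    ⟨lm_id, lm_totient, lm_sigma⟩, fun a d ha hd => expanding_pow ha hd⟩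
  have hd := hG.one_le
  have h3 : d * (0.612 - η) + κ < 1 := by nlinarith
  constructor
  · obtain ⟨K, hK, hK2⟩ := orbit_good_nat (fun _ => True) (Rich c η) hf hG hs hκ h3 (cnt hN hη1)
    exact ⟨K, hK, almostAll_mono hK2 (fun m hm k hk n hn hw => hm k hk n hn trivial hw)⟩
  · intro U
    obtain ⟨N₀, hN₀⟩ := keep_good_nat (fun _ => True) (Rich c η) hf hG hs hκ h3 (cnt hN hη1) U
    refine ⟨N₀, fun N hN => le_trans (le_of_eq ?_) (hN₀ N hN)⟩
    congr 2
    ext m
    simp only [Set.mem_ofPred_eq, true_implies]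

end Pool.Agent.Results.MP_1e9cc8_nt.TotientOrbits
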